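import Pool.Agent.H.MP_c23f48_an.C

set_option autoImplicit false

namespace Pool.Agent.Results.MP_c23f48_an.Yes
open Complex Matrix

/-- value of the polynomial symbol at a real point -/
noncomputable def ev {n : ℕ} (τ : MvPolynomial (Fin n) ℂ) (ξ : Fin n → ℝ) : ℂ :=
  MvPolynomial.eval (fun i => (ξ i : ℂ)) τ

/-- trigonometric polynomial with coefficients `c` and frequencies `ξ` -/
noncomputable def trig {n : ℕ} {ι : Type} [Fintype ι] (c : ι → ℂ) (ξ : ι → Fin n → ℝ)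
    (x : Fin n → ℝ) : ℂ :=
  ∑ j, c j * exp ((x ⬝ᵥ ξ j : ℝ) * I)

theorem result (n : ℕ) (τ : MvPolynomial (Fin n) ℂ) (r : ℝ) (hr : 0 < r) (b : Fin n → ℝ)
    (hb : b ⬝ᵥ b ≤ r ^ 2)
    (h : ∀ (ι : Type) [Fintype ι] (c : ι → ℂ) (ξ : ι → Fin n → ℝ) (C : ℝ),
      (∀ j, ξ j ⬝ᵥ ξ j ≤ r ^ 2) → (∀ x, ‖trig c ξ x‖ ≤ C) →
      ∀ x, ‖trig (fun j => c j * ev τ (ξ j)) ξ x‖ ≤ ‖ev τ b‖ * C) :
    ∃ (a : Fin n → ℝ) (ρ : Polynomial ℂ), ∀ ξ, ev τ ξ = ρ.eval ((a ⬝ᵥ ξ : ℝ) : ℂ) :=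
  Pool.Agent.H.MP_c23f48_an.main hr hb h

end Pool.Agent.Results.MP_c23f48_an.Yes
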